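import Pool.Agent.Lat.Bdry

/-!
# The giant component of the complement of a set with small star components

See `exists_giant`.
-/

set_option autoImplicit false

namespace Pool.Agent.Lat

open Relation

variable {d : ℕ}

/-- all finite star connected subsets of `B` have diameter less than `h` -/
def Small (h : ℕ) (B : Set (Fin d → ℤ)) : Prop :=
  ∀ S, S ⊆ B → S.Finite → Conn st S → ∀ x ∈ S, ∀ y ∈ S, ∀ i, |x i - y i| < h

/-- the connected component of `u` in `W` -/
def comp (W : Set (Fin d → ℤ)) (u : Fin d → ℤ) : Set (Fin d → ℤ) :=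
  {x | ReflTransGen (fun a b => nn a b ∧ b ∈ W) u x}

theorem path_mono {r : (Fin d → ℤ) → (Fin d → ℤ) → Prop} {S T : Set (Fin d → ℤ)} (h : S ⊆ T)
    {x y : Fin d → ℤ} (hp : ReflTransGen (fun u v => r u v ∧ v ∈ S) x y) :
    ReflTransGen (fun u v => r u v ∧ v ∈ T) x y := by
  induction hp with
  | refl => exact ReflTransGen.refl
  | tail _ hbc ih => exact ReflTransGen.tail ih ⟨hbc.1, h hbc.2⟩

theorem path_mem {r : (Fin d → ℤ) → (Fin d → ℤ) → Prop} {S : Set (Fin d → ℤ)}
    {x y : Fin d → ℤ} (hx : x ∈ S) (hp : ReflTransGen (fun u v => r u v ∧ v ∈ S) x y) : y ∈ S := by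
  rcases ReflTransGen.cases_tail hp with h | ⟨w, _, h⟩
  · rw [h]; exact hx
  · exact h.2

theorem path_rev {W : Set (Fin d → ℤ)} {x y : Fin d → ℤ} (hx : x ∈ W)
    (hp : ReflTransGen (fun u v => nn u v ∧ v ∈ W) x y) :
    ReflTransGen (fun u v => nn u v ∧ v ∈ W) y x := by
  induction hp with
  | refl => exact ReflTransGen.refl
  | tail hab hbc ih => exact ReflTransGen.head ⟨nn_symm hbc.1, path_mem hx hab⟩ ih

theorem comp_sub {W : Set (Fin d → ℤ)} {u : Fin d → ℤ} (hu : u ∈ W) : comp W u ⊆ W :=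
  fun _ hx => path_mem hu hx

theorem comp_closed {W : Set (Fin d → ℤ)} {u x y : Fin d → ℤ} (hx : x ∈ comp W u)
    (hxy : nn x y) (hy : y ∈ W) : y ∈ comp W u := ReflTransGen.tail hx ⟨hxy, hy⟩

theorem comp_path {W : Set (Fin d → ℤ)} {u x y : Fin d → ℤ} (hx : x ∈ comp W u)
    (hp : ReflTransGen (fun a b => nn a b ∧ b ∈ W) x y) :
    ReflTransGen (fun a b => nn a b ∧ b ∈ comp W u) x y := by
  induction hp with
  | refl => exact ReflTransGen.refl
  | tail hab hbc ih =>
    exact ReflTransGen.tail ih ⟨hbc.1, comp_closed (ReflTransGen.trans hx hab) hbc.1 hbc.2⟩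

theorem comp_conn {W : Set (Fin d → ℤ)} {u : Fin d → ℤ} (hu : u ∈ W) : Conn nn (comp W u) := by
  intro x hx y hy
  exact comp_path hx (ReflTransGen.trans (path_rev hu hx) hy)

theorem comp_of_conn {W S : Set (Fin d → ℤ)} {u x : Fin d → ℤ} (hS : Conn nn S) (hSW : S ⊆ W)
    (hu : u ∈ S) (hx : x ∈ S) : x ∈ comp W u := path_mono hSW (hS u hu x hx)

theorem compl_conn {Λ V : Set (Fin d → ℤ)} (hΛ : Conn nn Λ) (hV : Conn nn V) (hVΛ : V ⊆ Λ)
    {v : Fin d → ℤ} (hv : v ∈ V) {u : Fin d → ℤ} (hu : u ∈ Λ \ V) :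
    Conn nn (Λ \ comp (Λ \ V) u) := by
  have hVU : ∀ x ∈ V, x ∈ Λ \ comp (Λ \ V) u := fun x hx => ⟨hVΛ hx, fun h =>
    (comp_sub hu h).2 hx⟩
  have key : ∀ z w, w ∈ V → ReflTransGen (fun a b => nn a b ∧ b ∈ Λ) z w →
      z ∈ Λ \ comp (Λ \ V) u → ∃ v' ∈ V, ReflTransGen
        (fun a b => nn a b ∧ b ∈ Λ \ comp (Λ \ V) u) z v' := by
    intro z w hw hp
    induction hp using ReflTransGen.head_induction_on with
    | refl => exact fun _ => ⟨w, hw, ReflTransGen.refl⟩
    | head hab hbc ih =>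
      rename_i a b
      intro ha
      by_cases haV : a ∈ V
      · exact ⟨a, haV, ReflTransGen.refl⟩
      · have hb : b ∈ Λ \ comp (Λ \ V) u := by
          refine ⟨hab.2, fun hb => ha.2 (comp_closed hb (nn_symm hab.1) ⟨ha.1, haV⟩)⟩
        obtain ⟨v', hv', hp'⟩ := ih hb
        exact ⟨v', hv', ReflTransGen.head ⟨hab.1, hb⟩ hp'⟩
  intro x hx y hy
  obtain ⟨v1, hv1, hp1⟩ := key x v hv (hΛ x hx.1 v (hVΛ hv)) hx
  obtain ⟨v2, hv2, hp2⟩ := key y v hv (hΛ y hy.1 v (hVΛ hv)) hy
  exact ReflTransGen.trans (ReflTransGen.trans hp1 (path_mono hVU (hV v1 hv1 v2 hv2)))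
    (path_rev hy hp2)

/-- in a connected good set, the inner boundary of a component of the complement of a connected
set `V` is star connected and each of its points is a neighbour of `V` -/
theorem ib_comp {Λ V : Set (Fin d → ℤ)} (hG : Good Λ) (hΛ : Conn nn Λ) (hV : Conn nn V)
    (hVΛ : V ⊆ Λ) {v : Fin d → ℤ} (hv : v ∈ V) {u : Fin d → ℤ} (hu : u ∈ Λ \ V) :
    Conn st (ib Λ (comp (Λ \ V) u)) ∧
      ∀ x ∈ ib Λ (comp (Λ \ V) u), x ∈ Λ \ V ∧ ∃ y ∈ V, nn x y := by
  refine ⟨ib_conn hG (fun x hx => (comp_sub hu hx).1) (comp_conn hu)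
    (compl_conn hΛ hV hVΛ hv hu), fun x hx => ?_⟩
  obtain ⟨hxU, y, hy, hyU, hn⟩ := hx
  refine ⟨comp_sub hu hxU, y, ?_, hn⟩
  by_contra hyV
  exact hyU (comp_closed hxU hn ⟨hy, hyV⟩)

/-- boxes are connected -/
theorem conn_box (a b : Fin d → ℤ) : Conn nn (box a b) := by
  have key : ∀ n : ℕ, ∀ x y, x ∈ box a b → y ∈ box a b → ∑ i, (x i - y i).natAbs = n →
      ReflTransGen (fun u v => nn u v ∧ v ∈ box a b) x y := by
    intro n
    induction n with
    | zero =>
      intro x y _ _ h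
      have : x = y := by
        funext i
        have h1 := (Finset.sum_eq_zero_iff.1 h) i (Finset.mem_univ i)
        omega
      rw [this]
    | succ n ih =>
      intro x y hx hy h
      have hk : ∃ k, x k ≠ y k := by
        by_contra hcon
        push Not at hcon
        have : ∑ i, (x i - y i).natAbs = 0 := Finset.sum_eq_zero fun i _ => by rw [hcon i]; simp
        omega
      obtain ⟨k, hk⟩ := hk
      have key2 : ∀ x' : Fin d → ℤ, (∀ i, i ≠ k → x' i = x i) →
          (x' k - y k).natAbs + 1 = (x k - y k).natAbs → x' ∈ box a b → nn x x' →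
          ReflTransGen (fun u v => nn u v ∧ v ∈ box a b) x y := by
        intro x' h1 h2 h3 h4
        refine ReflTransGen.head ⟨h4, h3⟩ (ih x' y h3 hy ?_)
        have g1 := Finset.add_sum_erase Finset.univ (fun i => (x i - y i).natAbs)
          (Finset.mem_univ k)
        have g2 := Finset.add_sum_erase Finset.univ (fun i => (x' i - y i).natAbs)
          (Finset.mem_univ k)
        have g3 : ∑ i ∈ Finset.univ.erase k, (x' i - y i).natAbs =
            ∑ i ∈ Finset.univ.erase k, (x i - y i).natAbs :=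
          Finset.sum_congr rfl fun i hi => by rw [h1 i (Finset.ne_of_mem_erase hi)]
        rw [g3] at g2
        omega
      have hxk := hx k
      have hyk := hy k
      rcases lt_or_gt_of_ne hk with h1 | h1
      · refine key2 (x + Pi.single k 1) (fun i hi => ?_) ?_ (fun i => ?_) ⟨k, Or.inl rfl⟩
        · simp [Pi.single_eq_of_ne hi]
        · simp only [Pi.add_apply, Pi.single_eq_same]; omega
        · by_cases hi : i = k
          · subst hi; simp only [Pi.add_apply, Pi.single_eq_same]; omega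
          · simp only [Pi.add_apply, Pi.single_eq_of_ne hi, add_zero]; exact hx i
      · refine key2 (x - Pi.single k 1) (fun i hi => ?_) ?_ (fun i => ?_)
          ⟨k, Or.inr (by abel)⟩
        · simp [Pi.single_eq_of_ne hi]
        · simp only [Pi.sub_apply, Pi.single_eq_same]; omega
        · by_cases hi : i = k
          · subst hi; simp only [Pi.sub_apply, Pi.single_eq_same]; omega
          · simp only [Pi.sub_apply, Pi.single_eq_of_ne hi, sub_zero]; exact hx i
  exact fun x hx y hy => key _ x y hx hy rfl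

/-- slices of boxes are connected -/
theorem conn_slice (a b : Fin d → ℤ) (i : Fin d) (c : ℤ) :
    Conn nn {z | z ∈ box a b ∧ z i = c} := by
  by_cases hc : a i ≤ c ∧ c < b i
  · have : {z | z ∈ box a b ∧ z i = c} =
        box (Function.update a i c) (Function.update b i (c + 1)) := by
      ext z
      constructor
      · rintro ⟨h1, h2⟩ j
        by_cases hj : j = i
        · subst hj; rw [Function.update_self, Function.update_self]; omega
        · rw [Function.update_of_ne hj, Function.update_of_ne hj]; exact h1 j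
      · intro h
        have h2 := h i
        rw [Function.update_self, Function.update_self] at h2
        refine ⟨fun j => ?_, by omega⟩
        by_cases hj : j = i
        · subst hj; omega
        · have := h j
          rw [Function.update_of_ne hj, Function.update_of_ne hj] at this
          exact this
    rw [this]
    exact conn_box _ _
  · intro x hx
    exfalso
    apply hc
    have := hx.1 i
    rw [hx.2] at this
    exact this

/-- the complement of a small cube in a box is connected -/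
theorem conn_diff_cube {a b q : Fin d → ℤ} {h : ℤ} {i0 i1 : Fin d} (hi : i0 ≠ i1)
    (hs : ∀ i, a i + h < b i) (hh : 0 ≤ h) :
    Conn nn (box a b \ {x | ∀ i, q i ≤ x i ∧ x i < q i + h}) := by
  classical
  let v : Fin d → ℤ := fun j => if a j < q j then a j else b j - 1
  have hv : ∀ j, a j ≤ v j ∧ v j < b j := by
    intro j
    have := hs j
    simp only [v]
    split_ifs <;> omega
  have hvq : ∀ j, ¬ (q j ≤ v j ∧ v j < q j + h) := by
    intro j
    have := hs j
    simp only [v]
    split_ifs <;> omega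
  have hsub : ∀ (j : Fin d) (c : ℤ), ¬ (q j ≤ c ∧ c < q j + h) →
      {z | z ∈ box a b ∧ z j = c} ⊆ box a b \ {x | ∀ i, q i ≤ x i ∧ x i < q i + h} := by
    rintro j c hc z ⟨hz, hzc⟩
    refine ⟨hz, fun hq => hc ?_⟩
    rw [← hzc]; exact hq j
  have key : ∀ x ∈ box a b \ {x | ∀ i, q i ≤ x i ∧ x i < q i + h},
      ReflTransGen (fun u w => nn u w ∧
        w ∈ box a b \ {x | ∀ i, q i ≤ x i ∧ x i < q i + h}) x v := by
    rintro x ⟨hx, hxq⟩
    have hxq' : ∃ i, ¬ (q i ≤ x i ∧ x i < q i + h) := by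
      by_contra hcon
      push Not at hcon
      exact hxq fun i => hcon i
    obtain ⟨i, hi'⟩ := hxq'
    obtain ⟨j, hj⟩ : ∃ j, j ≠ i := by
      by_cases h1 : i0 = i
      · exact ⟨i1, fun h2 => hi (h1.trans h2.symm)⟩
      · exact ⟨i0, h1⟩
    have hy : Function.update x j (v j) ∈ box a b := by
      intro k
      by_cases hk : k = j
      · subst hk; rw [Function.update_self]; exact hv k
      · rw [Function.update_of_ne hk]; exact hx k
    have p1 := conn_slice a b i (x i) x ⟨hx, rfl⟩ (Function.update x j (v j))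
      ⟨hy, Function.update_of_ne hj.symm _ _⟩
    have p2 := conn_slice a b j (v j) (Function.update x j (v j))
      ⟨hy, Function.update_self ..⟩ v ⟨hv, rfl⟩
    exact ReflTransGen.trans (path_mono (hsub i _ hi') p1) (path_mono (hsub j _ (hvq j)) p2)
  intro x hx y hy
  exact ReflTransGen.trans (key x hx) (path_rev hy (key y hy))

theorem box_finite (a b : Fin d → ℤ) : (box a b).Finite := by
  have : box a b = {x | ∀ i, x i ∈ Set.Ico (a i) (b i)} := by
    ext x; simp [box]
  rw [this]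
  exact Set.Finite.pi' (fun i => Set.finite_Ico (a i) (b i))

theorem ivt {S : Set (Fin d → ℤ)} {x y : Fin d → ℤ} (hx : x ∈ S)
    (hp : ReflTransGen (fun u v => st u v ∧ v ∈ S) x y) (i : Fin d) (t : ℤ)
    (h1 : min (x i) (y i) ≤ t) (h2 : t ≤ max (x i) (y i)) : ∃ z ∈ S, z i = t := by
  induction hp with
  | refl => exact ⟨x, hx, by simp at h1 h2; omega⟩
  | tail hab hbc ih =>
    rename_i b c
    by_cases ht : min (x i) (b i) ≤ t ∧ t ≤ max (x i) (b i)
    · exact ih ht.1 ht.2
    · refine ⟨c, hbc.2, ?_⟩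
      have h3 := abs_le.1 (hbc.1 i)
      omega

/-- the diameter of a star connected set is less than its number of elements -/
theorem diam_lt {S : Set (Fin d → ℤ)} (hS : S.Finite) (hc : Conn st S) {x y : Fin d → ℤ}
    (hx : x ∈ S) (hy : y ∈ S) (i : Fin d) : |x i - y i| < S.ncard := by
  classical
  have h1 : Finset.Icc (min (x i) (y i)) (max (x i) (y i)) ⊆ hS.toFinset.image (fun z => z i) := by
    intro t ht
    rw [Finset.mem_Icc] at ht
    obtain ⟨z, hz, hzt⟩ := ivt hx (hc x hx y hy) i t ht.1 ht.2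
    exact Finset.mem_image.2 ⟨z, hS.mem_toFinset.2 hz, hzt⟩
  have h2 := Finset.card_le_card h1
  have h3 : (hS.toFinset.image (fun z => z i)).card ≤ S.ncard := by
    rw [Set.ncard_eq_toFinset_card S hS]; exact Finset.card_image_le
  rw [Int.card_Icc] at h2
  rcases le_total (x i) (y i) with h | h
  · rw [min_eq_left h, max_eq_right h] at h2
    rw [abs_of_nonpos (by omega)]; omega
  · rw [min_eq_right h, max_eq_left h] at h2
    rw [abs_of_nonneg (by omega)]; omega

/-- a set with small diameter lies in a cube -/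
theorem exists_cube {S : Set (Fin d → ℤ)} (hS : S.Finite) {h : ℤ}
    (hd : ∀ x ∈ S, ∀ y ∈ S, ∀ i, |x i - y i| < h) :
    ∃ q : Fin d → ℤ, ∀ x ∈ S, ∀ i, q i ≤ x i ∧ x i < q i + h := by
  by_cases hne : S.Nonempty
  · have h1 : ∀ i : Fin d, ∃ m ∈ S, ∀ z ∈ S, m i ≤ z i := fun i =>
      Set.exists_min_image S (fun z => z i) hS hne
    choose m hm hm' using h1
    refine ⟨fun i => m i i, fun x hx i => ⟨hm' i x hx, ?_⟩⟩
    have h2 := abs_lt.1 (hd x hx (m i) (hm i) i)
    show x i < m i i + h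
    omega
  · rw [Set.not_nonempty_iff_eq_empty] at hne
    subst hne
    exact ⟨0, fun x hx => absurd hx (Set.notMem_empty x)⟩

theorem exists_step (p : ℤ → Prop) {m n : ℤ} (hmn : m ≤ n) (hm : ¬ p m) (hn : p n) :
    ∃ t, m ≤ t ∧ t < n ∧ ¬ p t ∧ p (t + 1) := by
  classical
  by_contra hcon
  push Not at hcon
  have : ∀ t, m ≤ t → t ≤ n → ¬ p t := by
    intro t ht
    induction t, ht using Int.le_induction with
    | base => exact fun _ => hm
    | succ t ht ih => exact fun h1 => hcon t ht (by omega) (ih (by omega))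
  exact this n hmn le_rfl hn

/-- dichotomy: a component of the complement of a connected set is contained in a cube or contains
the complement of a cube -/
theorem cube_or {a b : Fin d → ℤ} {h : ℕ} {i0 i1 : Fin d} (hi : i0 ≠ i1)
    (hs : ∀ i, a i + h + 2 ≤ b i) {B : Set (Fin d → ℤ)} (hB : Small h B)
    {V : Set (Fin d → ℤ)} (hV : Conn nn V) (hVΛ : V ⊆ box a b) {v : Fin d → ℤ} (hv : v ∈ V)
    {u : Fin d → ℤ} (hu : u ∈ box a b \ V)
    (hVB : ∀ x ∈ box a b \ V, (∃ y ∈ V, nn x y) → x ∈ B) :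
    ∃ q : Fin d → ℤ, (∀ x ∈ comp (box a b \ V) u, ∀ i, q i ≤ x i ∧ x i < q i + h) ∨
      (∀ x ∈ box a b, x ∉ comp (box a b \ V) u → ∀ i, q i ≤ x i ∧ x i < q i + h) := by
  obtain ⟨h1, h2⟩ := ib_comp (good_box a b) (conn_box a b) hV hVΛ hv hu
  set U := comp (box a b \ V) u with hU
  have hSB : ib (box a b) U ⊆ B := fun x hx => hVB x (h2 x hx).1 (h2 x hx).2
  have hSf : (ib (box a b) U).Finite :=
    (box_finite a b).subset fun x hx => (h2 x hx).1.1
  obtain ⟨q, hq⟩ := exists_cube hSf (h := (h : ℤ)) (hB _ hSB hSf h1)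
  refine ⟨q, ?_⟩
  by_contra hcon
  push Not at hcon
  obtain ⟨⟨z, hz, i, hzi⟩, w, hw, hwU, j, hwj⟩ := hcon
  have hcube := conn_diff_cube (a := a) (b := b) (q := q) (h := (h : ℤ)) hi
    (fun i => by have := hs i; omega) (by positivity)
  have hzm : z ∈ box a b \ {x | ∀ i, q i ≤ x i ∧ x i < q i + (h : ℤ)} := by
    refine ⟨(comp_sub hu hz).1, fun h3 => ?_⟩
    have := h3 i
    have := hzi this.1
    omega
  have hwm : w ∈ box a b \ {x | ∀ i, q i ≤ x i ∧ x i < q i + (h : ℤ)} := by
    refine ⟨hw, fun h3 => ?_⟩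
    have := h3 j
    have := hwj this.1
    omega
  have hp := hcube z hzm w hwm
  -- the path leaves `U`
  have key : ∀ y, ReflTransGen (fun u v => nn u v ∧
      v ∈ box a b \ {x | ∀ i, q i ≤ x i ∧ x i < q i + (h : ℤ)}) z y → y ∈ U := by
    intro y hy
    induction hy with
    | refl => exact hz
    | tail hab hbc ih =>
      rename_i b' c'
      by_contra hc
      have hb : b' ∈ box a b \ {x | ∀ i, q i ≤ x i ∧ x i < q i + (h : ℤ)} := path_mem hzm hab
      exact hb.2 (hq b' ⟨ih, c', hbc.2.1, hc, hbc.1⟩)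
  exact hwU (key w hp)

/-- there is a large component -/
theorem exists_large {a b : Fin d → ℤ} {h : ℕ} {i0 i1 : Fin d} (hi : i0 ≠ i1)
    (hs : ∀ i, a i + h + 2 ≤ b i) {B : Set (Fin d → ℤ)} (hB : Small h B) :
    ∃ x ∈ box a b \ B, ∃ y ∈ comp (box a b \ B) x, (h : ℤ) ≤ |x i0 - y i0| := by
  classical
  set Λ := box a b with hΛ
  let L : Set (Fin d → ℤ) := {z | z ∈ box a b ∧ z i0 = a i0}
  let Rf : Set (Fin d → ℤ) := {z | z ∈ box a b ∧ z i0 = b i0 - 1}
  have hL : Conn nn L := conn_slice a b i0 (a i0)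
  have hR : Conn nn Rf := conn_slice a b i0 (b i0 - 1)
  have ha : ∀ i, a i < b i := fun i => by have := hs i; omega
  let V : Set (Fin d → ℤ) := {x | ∃ l ∈ L, ReflTransGen (fun u v => nn u v ∧ v ∈ Λ \ B) l x}
  have hLV : L ⊆ V := fun l hl => ⟨l, hl, ReflTransGen.refl⟩
  have hVΛ : V ⊆ Λ := by
    rintro x ⟨l, hl, hp⟩
    rcases ReflTransGen.cases_tail hp with h1 | ⟨w, _, h1⟩
    · rw [h1]; exact hl.1
    · exact h1.2.1
  have hpV : ∀ l ∈ L, ∀ x, ReflTransGen (fun u v => nn u v ∧ v ∈ Λ \ B) l x →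
      ReflTransGen (fun u v => nn u v ∧ v ∈ V) l x := by
    intro l hl x hp
    induction hp with
    | refl => exact ReflTransGen.refl
    | tail hab hbc ih => exact ReflTransGen.tail ih ⟨hbc.1, l, hl, ReflTransGen.tail hab hbc⟩
  have hV : Conn nn V := by
    rintro x ⟨l, hl, hp⟩ y ⟨l', hl', hp'⟩
    exact ReflTransGen.trans (path_rev (hLV hl) (hpV l hl x hp))
      (ReflTransGen.trans (path_mono hLV (hL l hl l' hl')) (hpV l' hl' y hp'))
  have haL : a ∈ L := ⟨fun i => ⟨le_rfl, ha i⟩, rfl⟩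
  have hVB : ∀ x ∈ Λ \ V, (∃ y ∈ V, nn x y) → x ∈ B := by
    rintro x hx ⟨y, ⟨l, hl, hp⟩, hn⟩
    by_contra hxB
    exact hx.2 ⟨l, hl, ReflTransGen.tail hp ⟨nn_symm hn, hx.1, hxB⟩⟩
  by_cases hcross : ∃ x, x ∈ V ∧ x ∈ Rf
  · obtain ⟨x, ⟨l, hl, hp⟩, hxR⟩ := hcross
    rcases ReflTransGen.cases_head hp with h1 | ⟨y, hly, hyx⟩
    · exfalso
      have h2 := hl.2
      have h3 := hxR.2
      have h4 := hs i0
      rw [h1] at h2
      omega
    · refine ⟨y, hly.2, x, hyx, ?_⟩
      have h2 := hl.2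
      have h3 := hxR.2
      have h4 := hs i0
      have h5 : y i0 ≤ l i0 + 1 := by
        obtain ⟨i, h6 | h6⟩ := hly.1
        · rw [h6, Pi.add_apply]
          by_cases h7 : i0 = i
          · subst h7; rw [Pi.single_eq_same]
          · rw [Pi.single_eq_of_ne h7]; omega
        · rw [h6, Pi.add_apply]
          by_cases h7 : i0 = i
          · subst h7; rw [Pi.single_eq_same]; omega
          · rw [Pi.single_eq_of_ne h7]; omega
      rw [h3, abs_of_nonpos (by omega)]
      omega
  · exfalso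
    push Not at hcross
    let r : Fin d → ℤ := fun i => if i = i0 then b i0 - 1 else a i
    have hr : r ∈ Rf := by
      refine ⟨fun i => ?_, by simp [r]⟩
      have h4 := hs i
      by_cases hii : i = i0
      · subst hii; simp only [r, if_true]; omega
      · simp only [r, if_neg hii]; omega
    have hrW : r ∈ Λ \ V := ⟨hr.1, fun h1 => hcross r h1 hr⟩
    obtain ⟨h1, h2⟩ := ib_comp (good_box a b) (conn_box a b) hV hVΛ (hLV haL) hrW
    set U := comp (Λ \ V) r with hU
    have hSB : ib Λ U ⊆ B := fun x hx => hVB x (h2 x hx).1 (h2 x hx).2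
    have hSf : (ib Λ U).Finite := (box_finite a b).subset fun x hx => (h2 x hx).1.1
    have hRU : Rf ⊆ U := fun x hx =>
      comp_of_conn hR (fun z hz => ⟨hz.1, fun h3 => hcross z h3 hz⟩) hr hx
    -- lines
    have hline : ∀ s : ℕ, s ≤ h → ∃ z ∈ ib Λ U, z i1 = a i1 + s := by
      intro s hsh
      let pt : ℤ → Fin d → ℤ := fun t => Function.update (Function.update a i1 (a i1 + s)) i0 t
      have hpt0 : ∀ t, pt t i0 = t := fun t => Function.update_self ..
      have hpt1 : ∀ t, pt t i1 = a i1 + s := fun t => by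
        simp only [pt]
        rw [Function.update_of_ne hi.symm, Function.update_self]
      have hptm : ∀ t, a i0 ≤ t → t < b i0 → pt t ∈ box a b := by
        intro t ht1 ht2 i
        by_cases hii : i = i0
        · subst hii; rw [hpt0]; exact ⟨ht1, ht2⟩
        · by_cases hi1 : i = i1
          · subst hi1; rw [hpt1]; have := hs i; omega
          · simp only [pt]
            rw [Function.update_of_ne hii, Function.update_of_ne hi1]
            exact ⟨le_rfl, ha i⟩
      have hs0 := hs i0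
      obtain ⟨t, ht1, ht2, ht3, ht4⟩ := exists_step (fun t => pt t ∈ U)
        (m := a i0) (n := b i0 - 1) (by omega)
        (fun h3 => by
          have h4 : pt (a i0) ∈ L := ⟨hptm _ le_rfl (ha i0), hpt0 _⟩
          exact (comp_sub hrW h3).2 (hLV h4))
        (hRU ⟨hptm _ (by omega) (by omega), hpt0 _⟩)
      refine ⟨pt (t + 1), ⟨ht4, pt t, hptm t ht1 (by omega), ht3, ?_⟩, hpt1 _⟩
      refine ⟨i0, Or.inr ?_⟩
      funext i
      rw [Pi.add_apply]
      by_cases hii : i = i0
      · subst hii; rw [hpt0, hpt0, Pi.single_eq_same]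
      · rw [Pi.single_eq_of_ne hii, add_zero]
        simp only [pt]
        rw [Function.update_of_ne hii, Function.update_of_ne hii]
    obtain ⟨z, hz, hz'⟩ := hline 0 (Nat.zero_le _)
    obtain ⟨w, hw, hw'⟩ := hline h le_rfl
    have h3 := abs_lt.1 (hB _ hSB hSf h1 z hz w hw i1)
    omega

/-- THE GIANT COMPONENT: if all star connected subsets of `B` have diameter less than `h`, then in a
box with sides at least `h + 2` (dimension at least two) one component of the complement of `B` meets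
every connected set of diameter at least `h`. -/
theorem exists_giant {a b : Fin d → ℤ} {h : ℕ} {i0 i1 : Fin d} (hi : i0 ≠ i1)
    (hs : ∀ i, a i + h + 2 ≤ b i) {B : Set (Fin d → ℤ)} (hB : Small h B) :
    ∃ T, T ⊆ box a b \ B ∧ Conn nn T ∧ (∀ x ∈ T, ∀ y ∈ box a b \ B, nn x y → y ∈ T) ∧
      (∃ x ∈ T, ∃ y ∈ T, (h : ℤ) ≤ |x i0 - y i0|) ∧
      ∀ γ, γ ⊆ box a b → Conn nn γ → (∃ p ∈ γ, ∃ q ∈ γ, ∃ i, (h : ℤ) ≤ |p i - q i|) →
        ∃ z ∈ γ, z ∈ T := by
  obtain ⟨x, hx, y, hy, hxy⟩ := exists_large hi hs hB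
  refine ⟨comp (box a b \ B) x, comp_sub hx, comp_conn hx,
    fun z hz w hw hzw => comp_closed hz hzw hw, ⟨x, ReflTransGen.refl, y, hy, hxy⟩, ?_⟩
  rintro γ hγ hγc ⟨p, hp, q', hq', i, hpq⟩
  by_contra hcon
  push Not at hcon
  set T := comp (box a b \ B) x with hT
  have hTΛ : T ⊆ box a b := fun z hz => (comp_sub hx hz).1
  have hpW : p ∈ box a b \ T := ⟨hγ hp, hcon p hp⟩
  obtain ⟨q, hq⟩ := cube_or hi hs hB (comp_conn hx) hTΛ (v := x) ReflTransGen.refl hpW
    (by
      rintro z hz ⟨w, hw, hzw⟩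
      by_contra hzB
      exact hz.2 (comp_closed hw (nn_symm hzw) ⟨hz.1, hzB⟩))
  have hγU : ∀ z ∈ γ, z ∈ comp (box a b \ T) p := fun z hz =>
    comp_of_conn hγc (fun w hw => ⟨hγ hw, hcon w hw⟩) hp hz
  rcases hq with hq | hq
  · have h1 := hq p (hγU p hp) i
    have h2 := hq q' (hγU q' hq') i
    have h3 : |p i - q' i| < h := by rw [abs_lt]; omega
    omega
  · have hno : ∀ z ∈ T, z ∉ comp (box a b \ T) p := fun z hz h1 => (comp_sub hpW h1).2 hz
    have h1 := hq x (hTΛ ReflTransGen.refl) (hno x ReflTransGen.refl) i0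
    have h2 := hq y (hTΛ hy) (hno y hy) i0
    have h3 : |x i0 - y i0| < h := by rw [abs_lt]; omega
    omega

end Pool.Agent.Lat
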