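import Mathlib

/-!
# Boundaries of connected sets in a box of `ℤ ^ d` are star connected

`Good Λ`: every `ZMod 2` valued function on the edges of `Λ` which sums to zero around each unit
square is a coboundary.  Boxes are good.  In a good set the inner boundary of a connected set with
connected complement is star connected.  Consequence (`exists_giant`): if all star connected subsets
of `B` have less than `h` elements, then the complement of `B` in a box with sides at least `h + 2`
has a connected subset which meets every connected set of diameter at least `h`.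
-/

set_option autoImplicit false

namespace Pool.Agent.Lat

open Relation

variable {d : ℕ}

/-- nearest neighbours -/
def nn (x y : Fin d → ℤ) : Prop := ∃ i, y = x + Pi.single i 1 ∨ x = y + Pi.single i 1

/-- star neighbours (or equal) -/
def st (x y : Fin d → ℤ) : Prop := ∀ i, |x i - y i| ≤ 1

/-- `U` is connected for the relation `r` -/
def Conn (r : (Fin d → ℤ) → (Fin d → ℤ) → Prop) (U : Set (Fin d → ℤ)) : Prop :=
  ∀ x ∈ U, ∀ y ∈ U, ReflTransGen (fun u v => r u v ∧ v ∈ U) x y

/-- the box `∏ [a i, b i)` -/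
def box (a b : Fin d → ℤ) : Set (Fin d → ℤ) := {x | ∀ i, a i ≤ x i ∧ x i < b i}

/-- `φ` sums to zero around the unit squares of `Λ` -/
def Closed (Λ : Set (Fin d → ℤ)) (φ : (Fin d → ℤ) → Fin d → ZMod 2) : Prop :=
  ∀ x i j, i ≠ j → x ∈ Λ → x + Pi.single i 1 ∈ Λ → x + Pi.single j 1 ∈ Λ →
    x + Pi.single i 1 + Pi.single j 1 ∈ Λ →
    φ x i + φ (x + Pi.single i 1) j = φ x j + φ (x + Pi.single j 1) i

/-- every closed function on the edges is a coboundary -/
def Good (Λ : Set (Fin d → ℤ)) : Prop :=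
  ∀ φ, Closed Λ φ → ∃ ψ : (Fin d → ℤ) → ZMod 2, ∀ x i, x ∈ Λ → x + Pi.single i 1 ∈ Λ →
    φ x i = ψ x + ψ (x + Pi.single i 1)

/-- the inner boundary of `U` in `Λ` -/
def ib (Λ U : Set (Fin d → ℤ)) : Set (Fin d → ℤ) := {x | x ∈ U ∧ ∃ y, y ∈ Λ ∧ y ∉ U ∧ nn x y}

theorem nn_symm {x y : Fin d → ℤ} (h : nn x y) : nn y x := by
  obtain ⟨i, h | h⟩ := h
  · exact ⟨i, Or.inr h⟩
  · exact ⟨i, Or.inl h⟩

theorem z2 (x : ZMod 2) : x + x = 0 := CharTwo.add_self_eq_zero x

theorem closed_mono {Λ Λ' : Set (Fin d → ℤ)} (h : Λ' ⊆ Λ) {φ : (Fin d → ℤ) → Fin d → ZMod 2}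
    (hφ : Closed Λ φ) : Closed Λ' φ :=
  fun x i j hij h1 h2 h3 h4 => hφ x i j hij (h h1) (h h2) (h h3) (h h4)

private theorem good_box_aux (n : ℕ) : ∀ a b : Fin d → ℤ,
    ∑ i, (b i - a i - 1).toNat = n → Good (box a b) := by
  induction n with
  | zero =>
    intro a b h φ _
    refine ⟨fun _ => 0, fun x i hx hy => ?_⟩
    exfalso
    have h1 := (Finset.sum_eq_zero_iff.1 h) i (Finset.mem_univ i)
    have h2 := hx i
    have h3 := hy i
    simp only [Pi.add_apply, Pi.single_eq_same] at h3
    omega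
  | succ n ih =>
    intro a b h φ hφ
    have hk : ∃ k, 0 < (b k - a k - 1).toNat := by
      by_contra hcon
      push Not at hcon
      have : ∑ i, (b i - a i - 1).toNat = 0 :=
        Finset.sum_eq_zero fun i _ => Nat.le_zero.1 (hcon i)
      omega
    obtain ⟨k, hk⟩ := hk
    let b' : Fin d → ℤ := Function.update b k (b k - 1)
    have hb'k : b' k = b k - 1 := Function.update_self ..
    have hb' : ∀ i, i ≠ k → b' i = b i := fun i hi => Function.update_of_ne hi ..
    have hsum : ∑ i, (b' i - a i - 1).toNat = n := by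
      have h1 := Finset.add_sum_erase Finset.univ (fun i => (b i - a i - 1).toNat)
        (Finset.mem_univ k)
      have h2 := Finset.add_sum_erase Finset.univ (fun i => (b' i - a i - 1).toNat)
        (Finset.mem_univ k)
      have h3 : ∑ i ∈ Finset.univ.erase k, (b' i - a i - 1).toNat =
          ∑ i ∈ Finset.univ.erase k, (b i - a i - 1).toNat :=
        Finset.sum_congr rfl fun i hi => by rw [hb' i (Finset.ne_of_mem_erase hi)]
      rw [h3, hb'k] at h2
      omega
    have hsub : box a b' ⊆ box a b := by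
      intro x hx i
      have h1 := hx i
      by_cases hi : i = k
      · subst hi; rw [hb'k] at h1; omega
      · rw [hb' i hi] at h1; exact h1
    have hmem : ∀ x ∈ box a b, x k < b k - 1 → x ∈ box a b' := by
      intro x hx hxk i
      have h1 := hx i
      by_cases hi : i = k
      · subst hi; rw [hb'k]; exact ⟨h1.1, hxk⟩
      · rw [hb' i hi]; exact h1
    obtain ⟨ψ, hψ⟩ := ih a b' hsum φ (closed_mono hsub hφ)
    let E : Fin d → ℤ := Pi.single k 1
    have hEk : E k = 1 := Pi.single_eq_same ..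
    have hEi : ∀ i, i ≠ k → E i = 0 := fun i hi => Pi.single_eq_of_ne hi _
    refine ⟨fun x => if x k = b k - 1 then ψ (x - E) + φ (x - E) k else ψ x,
      fun x i hx hy => ?_⟩
    simp only
    by_cases hi : i = k
    · subst hi
      have h2 := hy i
      simp only [Pi.add_apply, Pi.single_eq_same] at h2
      have hxk : x i ≠ b i - 1 := by omega
      rw [if_neg hxk]
      by_cases h3 : x i + 1 = b i - 1
      · have h4 : (x + Pi.single i 1 : Fin d → ℤ) i = b i - 1 := by
          simp only [Pi.add_apply, Pi.single_eq_same]; exact h3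
        rw [if_pos h4]
        have h5 : x + Pi.single i 1 - E = x := by
          simp only [E]; abel
        rw [h5, ← add_assoc, z2, zero_add]
      · have h4 : ¬ (x + Pi.single i 1 : Fin d → ℤ) i = b i - 1 := by
          simp only [Pi.add_apply, Pi.single_eq_same]; exact h3
        rw [if_neg h4]
        refine hψ x i (hmem x hx (by omega)) (hmem _ hy ?_)
        simp only [Pi.add_apply, Pi.single_eq_same]
        omega
    · have hyk : (x + Pi.single i 1 : Fin d → ℤ) k = x k := by
        simp only [Pi.add_apply, Pi.single_eq_of_ne (Ne.symm hi), add_zero]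
      rw [hyk]
      by_cases hxk : x k = b k - 1
      · rw [if_pos hxk, if_pos hxk]
        have hx0 := hx k
        have hw : x - E ∈ box a b := by
          intro j
          have h1 := hx j
          by_cases hj : j = k
          · subst hj; simp only [Pi.sub_apply, hEk]; omega
          · simp only [Pi.sub_apply, hEi j hj]; omega
        have hw' : x - E ∈ box a b' := hmem _ hw (by simp only [Pi.sub_apply, hEk]; omega)
        have hv : x - E + Pi.single i 1 ∈ box a b := by
          intro j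
          have h1 := hy j
          by_cases hj : j = k
          · subst hj
            simp only [Pi.add_apply, Pi.sub_apply, hEk] at h1 ⊢
            rw [Pi.single_eq_of_ne (Ne.symm hi)] at h1 ⊢
            omega
          · simp only [Pi.add_apply, Pi.sub_apply, hEi j hj, sub_zero] at h1 ⊢
            exact h1
        have hv' : x - E + Pi.single i 1 ∈ box a b' := by
          refine hmem _ hv ?_
          simp only [Pi.add_apply, Pi.sub_apply, hEk]
          rw [Pi.single_eq_of_ne (Ne.symm hi)]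
          omega
        have h1 := hψ (x - E) i hw' hv'
        have e1 : x - E + Pi.single k 1 = x := by simp only [E]; abel
        have e2 : x - E + Pi.single i 1 + Pi.single k 1 = x + Pi.single i 1 := by
          simp only [E]; abel
        have h2 := hφ (x - E) i k hi hw hv (by rw [e1]; exact hx) (by rw [e2]; exact hy)
        rw [e1] at h2
        have e3 : x + Pi.single i 1 - E = x - E + Pi.single i 1 := by abel
        rw [e3]
        have h3 : φ x i = φ (x - E) i + φ (x - E + Pi.single i 1) k + φ (x - E) k := by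
          rw [h2, add_right_comm, z2, zero_add]
        rw [h3, h1]
        abel
      · rw [if_neg hxk, if_neg hxk]
        have hx0 := hx k
        refine hψ x i (hmem x hx (by omega)) (hmem _ hy ?_)
        rw [hyk]; omega

/-- boxes are good -/
theorem good_box (a b : Fin d → ℤ) : Good (box a b) := good_box_aux _ a b rfl

private theorem st_plaq (x : Fin d → ℤ) (i j : Fin d) (hij : i ≠ j) (s t s' t' : ℤ)
    (hs : s = 0 ∨ s = 1) (ht : t = 0 ∨ t = 1) (hs' : s' = 0 ∨ s' = 1) (ht' : t' = 0 ∨ t' = 1) :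
    st (x + Pi.single i s + Pi.single j t) (x + Pi.single i s' + Pi.single j t') := by
  intro k
  simp only [Pi.add_apply]
  by_cases hki : k = i
  · subst hki
    rw [Pi.single_eq_same, Pi.single_eq_same, Pi.single_eq_of_ne hij, Pi.single_eq_of_ne hij]
    rw [abs_le]; constructor <;> rcases hs with rfl | rfl <;> rcases hs' with rfl | rfl <;> omega
  · rw [Pi.single_eq_of_ne hki, Pi.single_eq_of_ne hki]
    by_cases hkj : k = j
    · subst hkj
      rw [Pi.single_eq_same, Pi.single_eq_same]
      rw [abs_le]; constructor <;> rcases ht with rfl | rfl <;> rcases ht' with rfl | rfl <;> omega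
    · rw [Pi.single_eq_of_ne hkj, Pi.single_eq_of_ne hkj]; simp

/-- THE BOUNDARY LEMMA: in a good set the inner boundary of a connected set with connected
complement is star connected. -/
theorem ib_conn {Λ U : Set (Fin d → ℤ)} (hΛ : Good Λ) (hUΛ : U ⊆ Λ) (hU : Conn nn U)
    (hUc : Conn nn (Λ \ U)) : Conn st (ib Λ U) := by
  classical
  intro x0 hx0 x1 hx1
  let R : Set (Fin d → ℤ) := {x | ReflTransGen (fun u v => st u v ∧ v ∈ ib Λ U) x0 x}
  change x1 ∈ R
  have hR0 : x0 ∈ R := ReflTransGen.refl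
  have hRst : ∀ u v, u ∈ R → v ∈ ib Λ U → st u v → v ∈ R := fun u v hu hv huv =>
    ReflTransGen.tail hu ⟨huv, hv⟩
  have hRib : ∀ u, u ∈ R → u ∈ ib Λ U := by
    intro u hu
    rcases ReflTransGen.cases_tail hu with h | ⟨w, _, h⟩
    · rw [h]; exact hx0
    · exact h.2
  let f : (Fin d → ℤ) → (Fin d → ℤ) → ZMod 2 := fun x y =>
    if (x ∈ R ∧ y ∉ U) ∨ (y ∈ R ∧ x ∉ U) then 1 else 0
  have fsymm : ∀ x y, f x y = f y x := by
    intro x y
    simp only [f, or_comm]
  have hcl : Closed Λ (fun x i => f x (x + Pi.single i 1)) := by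
    intro x i j hij h0 h1 h3 h2
    simp only
    set p0 := x with hp0
    set p1 := x + Pi.single i 1 with hp1
    set p3 := x + Pi.single j 1 with hp3
    set p2 := x + Pi.single i 1 + Pi.single j 1 with hp2
    have e2 : p3 + Pi.single i 1 = p2 := by rw [hp3, hp2]; abel
    rw [e2]
    have q0 : p0 = x + Pi.single i (0 : ℤ) + Pi.single j (0 : ℤ) := by simp [hp0]
    have q1 : p1 = x + Pi.single i (1 : ℤ) + Pi.single j (0 : ℤ) := by simp [hp1]
    have q2 : p2 = x + Pi.single i (1 : ℤ) + Pi.single j (1 : ℤ) := hp2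
    have q3 : p3 = x + Pi.single i (0 : ℤ) + Pi.single j (1 : ℤ) := by simp [hp3]
    have n01 : nn p0 p1 := ⟨i, Or.inl rfl⟩
    have n12 : nn p1 p2 := ⟨j, Or.inl rfl⟩
    have n32 : nn p3 p2 := ⟨i, Or.inl e2.symm⟩
    have n03 : nn p0 p3 := ⟨j, Or.inl rfl⟩
    -- status of the square
    let P : Prop := p0 ∈ R ∨ p1 ∈ R ∨ p2 ∈ R ∨ p3 ∈ R
    have key : ∀ s t : ℤ, (s = 0 ∨ s = 1) → (t = 0 ∨ t = 1) → ∀ q, q ∈ Λ → q ∉ U →
        nn (x + Pi.single i s + Pi.single j t) q → (x + Pi.single i s + Pi.single j t) ∈ U →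
        P → (x + Pi.single i s + Pi.single j t) ∈ R := by
      intro s t hs ht q hq hqU hn hp hP
      have hib : (x + Pi.single i s + Pi.single j t) ∈ ib Λ U := ⟨hp, q, hq, hqU, hn⟩
      rcases hP with h | h | h | h
      · rw [q0] at h; exact hRst _ _ h hib (st_plaq x i j hij 0 0 s t (by simp) (by simp) hs ht)
      · rw [q1] at h; exact hRst _ _ h hib (st_plaq x i j hij 1 0 s t (by simp) (by simp) hs ht)
      · rw [q2] at h; exact hRst _ _ h hib (st_plaq x i j hij 1 1 s t (by simp) (by simp) hs ht)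
      · rw [q3] at h; exact hRst _ _ h hib (st_plaq x i j hij 0 1 s t (by simp) (by simp) hs ht)
    have key0 : ∀ q, q ∈ Λ → q ∉ U → nn p0 q → p0 ∈ U → P → p0 ∈ R := by
      have := key 0 0 (by simp) (by simp); rw [← q0] at this; exact this
    have key1 : ∀ q, q ∈ Λ → q ∉ U → nn p1 q → p1 ∈ U → P → p1 ∈ R := by
      have := key 1 0 (by simp) (by simp); rw [← q1] at this; exact this
    have key2 : ∀ q, q ∈ Λ → q ∉ U → nn p2 q → p2 ∈ U → P → p2 ∈ R := by
      have := key 1 1 (by simp) (by simp); rw [← q2] at this; exact this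
    have key3 : ∀ q, q ∈ Λ → q ∉ U → nn p3 q → p3 ∈ U → P → p3 ∈ R := by
      have := key 0 1 (by simp) (by simp); rw [← q3] at this; exact this
    have hRU : ∀ u, u ∈ R → u ∈ U := fun u hu => (hRib u hu).1
    have ef : ∀ p q, p ∈ Λ → q ∈ Λ → nn p q →
        (∀ r, r ∈ Λ → r ∉ U → nn p r → p ∈ U → P → p ∈ R) →
        (∀ r, r ∈ Λ → r ∉ U → nn q r → q ∈ U → P → q ∈ R) → (p ∈ R → P) → (q ∈ R → P) →
        f p q = if P ∧ ((p ∈ U ∧ q ∉ U) ∨ (q ∈ U ∧ p ∉ U)) then 1 else 0 := by
      intro p q hp hq hn kp kq hpP hqP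
      simp only [f]
      congr 1
      apply propext
      constructor
      · rintro (⟨h, h'⟩ | ⟨h, h'⟩)
        · exact ⟨hpP h, Or.inl ⟨hRU _ h, h'⟩⟩
        · exact ⟨hqP h, Or.inr ⟨hRU _ h, h'⟩⟩
      · rintro ⟨hP, ⟨h, h'⟩ | ⟨h, h'⟩⟩
        · exact Or.inl ⟨kp q hq h' hn h hP, h'⟩
        · exact Or.inr ⟨kq p hp h' (nn_symm hn) h hP, h'⟩
    rw [ef p0 p1 h0 h1 n01 key0 key1 (fun h => Or.inl h) (fun h => Or.inr (Or.inl h)),
      ef p1 p2 h1 h2 n12 key1 key2 (fun h => Or.inr (Or.inl h))
        (fun h => Or.inr (Or.inr (Or.inl h))),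
      ef p0 p3 h0 h3 n03 key0 key3 (fun h => Or.inl h) (fun h => Or.inr (Or.inr (Or.inr h))),
      ef p3 p2 h3 h2 n32 key3 key2 (fun h => Or.inr (Or.inr (Or.inr h)))
        (fun h => Or.inr (Or.inr (Or.inl h)))]
    by_cases hP : P
    · by_cases u0 : p0 ∈ U <;> by_cases u1 : p1 ∈ U <;> by_cases u2 : p2 ∈ U <;>
        by_cases u3 : p3 ∈ U <;> simp [hP, u0, u1, u2, u3] <;> rfl
    · simp [hP]
  obtain ⟨ψ, hψ⟩ := hΛ _ hcl
  have hψ' : ∀ x y, x ∈ Λ → y ∈ Λ → nn x y → f x y = ψ x + ψ y := by
    intro x y hx hy hxy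
    obtain ⟨i, h | h⟩ := hxy
    · have := hψ x i hx (h ▸ hy)
      rw [← h] at this; exact this
    · have := hψ y i hy (h ▸ hx)
      rw [← h] at this; rw [fsymm, add_comm]; exact this
  have hRU : ∀ u, u ∈ R → u ∈ U := fun u hu => (hRib u hu).1
  have heq : ∀ a b : ZMod 2, a + b = 0 → a = b := by
    intro a b h
    have := eq_neg_of_add_eq_zero_left h
    rw [this]; exact CharTwo.neg_eq b
  have cU : ∀ x ∈ U, ∀ y, ReflTransGen (fun u v => nn u v ∧ v ∈ U) x y → ψ y = ψ x := by
    intro x hx y hxy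
    induction hxy with
    | refl => rfl
    | tail hab hbc ih =>
      rename_i b c
      have hb : b ∈ U := by
        rcases ReflTransGen.cases_tail hab with h | ⟨w, _, h⟩
        · rw [h]; exact hx
        · exact h.2
      have h1 := hψ' b c (hUΛ hb) (hUΛ hbc.2) hbc.1
      have h2 : f b c = 0 := by
        simp only [f]
        rw [if_neg]
        rintro (⟨_, h⟩ | ⟨_, h⟩)
        · exact h hbc.2
        · exact h hb
      rw [h2] at h1
      rw [← ih]
      exact (heq _ _ h1.symm).symm
  have cC : ∀ x ∈ Λ \ U, ∀ y, ReflTransGen (fun u v => nn u v ∧ v ∈ Λ \ U) x y → ψ y = ψ x := by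
    intro x hx y hxy
    induction hxy with
    | refl => rfl
    | tail hab hbc ih =>
      rename_i b c
      have hb : b ∈ Λ \ U := by
        rcases ReflTransGen.cases_tail hab with h | ⟨w, _, h⟩
        · rw [h]; exact hx
        · exact h.2
      have h1 := hψ' b c hb.1 hbc.2.1 hbc.1
      have h2 : f b c = 0 := by
        simp only [f]
        rw [if_neg]
        rintro (⟨h, _⟩ | ⟨h, _⟩)
        · exact hb.2 (hRU _ h)
        · exact hbc.2.2 (hRU _ h)
      rw [h2] at h1
      rw [← ih]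
      exact (heq _ _ h1.symm).symm
  obtain ⟨hx0U, y0, hy0, hy0U, hn0⟩ := hx0
  obtain ⟨hx1U, y1, hy1, hy1U, hn1⟩ := hx1
  have e0 := hψ' x0 y0 (hUΛ hx0U) hy0 hn0
  have e1 := hψ' x1 y1 (hUΛ hx1U) hy1 hn1
  have g1 := cU x0 hx0U x1 (hU x0 hx0U x1 hx1U)
  have g2 := cC y0 ⟨hy0, hy0U⟩ y1 (hUc y0 ⟨hy0, hy0U⟩ y1 ⟨hy1, hy1U⟩)
  have f0 : f x0 y0 = 1 := if_pos (Or.inl ⟨hR0, hy0U⟩)
  have f1 : f x1 y1 = 1 := by rw [e1, g1, g2, ← e0, f0]
  simp only [f] at f1
  by_contra hcon
  rw [if_neg] at f1
  · exact absurd f1 (by decide)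
  · rintro (⟨h, _⟩ | ⟨h, _⟩)
    · exact hcon h
    · exact hy1U (hRU _ h)

end Pool.Agent.Lat
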